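import Pool.Agent.Q201.AR.Main6

/-!
# MP_f714b8_lc: one binary relation symbol suffices for `PA` plus the true `Π_n` sentences

For every `n` the theory `PA + Th_{Π_n}(ℕ)` is definitionally equivalent to a theory in a single
ternary relation symbol, and to a theory in a single binary relation symbol, which has a computable
nonstandard model. More generally, a theory `T₀ ⊇ PA` in the signature of arithmetic is
definitionally equivalent to a theory in one binary relation symbol with a computable nonstandard
model if and only if it has a nonstandard model on `ℕ` with an arithmetical atomic diagram, and the
same for one ternary symbol and for finite relational signatures in general.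

Definitions: `Sig ar` (the relational signature with arities `ar`), `Defs` (explicit definitions),
`DefEq` (definitional equivalence), `IsComputable`, `Presentable` in `Pool.Agent.Q201.AR.Def`;
`Arith`, `HasArithModel` in `Pool.Agent.Q201.AR.Def2`; `IsDelta0`, `IsHier`, `PAPi` in
`Pool.Agent.Q201.AR.Def3`; the signature `LA` and `PA` in `Pool.Agent.Helper227.EN.Lang`.

The proof: (1) an arithmetical nonstandard model of `PA + Th_{Π_n}(ℕ)` by the arithmetized
completeness theorem; (2) in models of `PA` a binary relation can be replaced by three relations on
the disjoint union of the universe, a second copy of it and the complement of the relation (Marker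
extension), which lowers the complexity of the atomic diagram; (3) finitely many relations are coded
by one binary relation on the universe together with chains attached to the tuples. In models of
`PA` the new universes are definably identified with the old one, which gives definitional
equivalences.
-/

set_option autoImplicit false

namespace Pool.Agent.Results.MP_f714b8_lc.OneBinarySymbol

open Q201.AR Pool.Agent.Helper227.EN

/-- **For every `n` the theory `PA + Th_{Π_n}(ℕ)` is definitionally equivalent to a theory in one
ternary relation symbol, and to a theory in one binary relation symbol, with a computable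
nonstandard model.** A theory `T₀ ⊇ PA` has this property, for one binary symbol, for one ternary
symbol, or for some finite relational signature, if and only if it has a nonstandard model on `ℕ`
with arithmetical atomic diagram. -/
theorem result :
    (∀ n : ℕ, Presentable (PAPi n) (fun _ : Fin 1 => 3) ∧
      Presentable (PAPi n) (fun _ : Fin 1 => 2)) ∧
    ∀ T₀ : LA.Theory, PA ⊆ T₀ →
      (Presentable T₀ (fun _ : Fin 1 => 2) ↔ HasArithModel T₀) ∧
      (Presentable T₀ (fun _ : Fin 1 => 3) ↔ HasArithModel T₀) ∧
      ((∃ (r : ℕ) (ar : Fin r → ℕ), Presentable T₀ ar) ↔ HasArithModel T₀) :=
  ⟨fun n => ⟨ternary_of _ (main_papi n), main_papi n⟩, fun T₀ hPA =>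
    ⟨⟨arith_of_presentable T₀ _, presentable_of_arith T₀ hPA⟩,
      ⟨arith_of_presentable T₀ _, fun h => ternary_of T₀ (presentable_of_arith T₀ hPA h)⟩,
      ⟨fun ⟨_, ar, h⟩ => arith_of_presentable T₀ ar h,
        fun h => ⟨1, _, presentable_of_arith T₀ hPA h⟩⟩⟩⟩

end Pool.Agent.Results.MP_f714b8_lc.OneBinarySymbol
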